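import Pool.Agent.H66.NfaDefs

/-! Transition-minimal NFAs may need far more states than state-minimal ones. -/

namespace Pool.Agent.Results.MP_48fb2a_lc.Unbounded

open Pool.Agent.H66.Nfa

variable {α σ τ : Type}

def tr (A : NFA α σ) : Set (σ × α × σ) := {x | x.2.2 ∈ A.step x.1 x.2.1}

theorem acc (A : NFA α σ) (g : σ → Set (List α)) (h0 : ∀ q, q ∈ A.accept ↔ [] ∈ g q)
    (h1 : ∀ q a w, a :: w ∈ g q ↔ ∃ p ∈ A.step q a, w ∈ g p) (w : List α) :
    ∀ S, w ∈ A.acceptsFrom S ↔ ∃ q ∈ S, w ∈ g q := by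
  induction w with
  | nil => intro S; simp [h0]
  | cons a w ih =>
    intro S
    rw [NFA.cons_mem_acceptsFrom, ih]
    simp only [NFA.mem_stepSet, h1]
    exact ⟨fun ⟨p, ⟨q, h, h'⟩, h''⟩ => ⟨q, h, p, h', h''⟩,
      fun ⟨q, h, p, h', h''⟩ => ⟨p, ⟨q, h, h'⟩, h''⟩⟩

theorem push (A : NFA α σ) {q : σ} (hq : A.start = {q}) {e : σ → τ} (he : e.Injective) :
    ∃ B : NFA α τ, B.start = {e q} ∧ B.accepts = A.accepts ∧ (tr B).ncard = (tr A).ncard := by
  let B : NFA α τ := ⟨fun x a => {y | ∃ p p', e p = x ∧ e p' = y ∧ p' ∈ A.step p a}, {e q},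
    e '' A.accept⟩
  have self : ∀ w S, w ∈ A.acceptsFrom S ↔ ∃ p ∈ S, w ∈ A.acceptsFrom {p} := fun w S => by
    conv_lhs => rw [← Set.biUnion_of_singleton S]
    rw [NFA.acceptsFrom_iUnion₂]
    exact Set.mem_iUnion₂.trans ⟨fun ⟨p, h, h'⟩ => ⟨p, h, h'⟩, fun ⟨p, h, h'⟩ => ⟨p, h, h'⟩⟩
  refine ⟨B, rfl, ?_, ?_⟩
  · ext w
    rw [NFA.accepts_eq_acceptsFrom_start, NFA.accepts_eq_acceptsFrom_start, hq,
      acc B (fun x => {w | ∃ p, e p = x ∧ w ∈ A.acceptsFrom {p}}) (fun x => by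
        simp [B, and_comm]) (fun x a w => ?_)]
    · simp [B, he.eq_iff]
    · simp only [Set.mem_setOf_eq, NFA.cons_mem_acceptsFrom, NFA.stepSet_singleton, B]
      constructor
      · rintro ⟨p, rfl, h⟩
        obtain ⟨p', h1, h2⟩ := (self _ _).1 h
        exact ⟨_, ⟨p, p', rfl, rfl, h1⟩, p', rfl, h2⟩
      · rintro ⟨_, ⟨p, p', rfl, rfl, h1⟩, p'', h2, h3⟩
        exact ⟨p, rfl, (self _ _).2 ⟨p', h1, he h2 ▸ h3⟩⟩
  · have : tr B = (fun x : σ × α × σ => (e x.1, x.2.1, e x.2.2)) '' tr A := by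
      ext ⟨x, a, y⟩
      constructor
      · rintro ⟨p, p', rfl, rfl, h⟩
        exact ⟨(p, a, p'), h, rfl⟩
      · rintro ⟨⟨p, a, p'⟩, h, e'⟩
        cases e'
        exact ⟨p, p', rfl, rfl, h⟩
    rw [this, Set.ncard_image_of_injective]
    rintro ⟨x, a, y⟩ ⟨x', a', y'⟩ h
    simp only [Prod.mk.injEq, he.eq_iff] at h
    simp [h]

theorem rec_of [Finite σ] (A : NFA α σ) {q : σ} (hq : A.start = {q}) :
    Rec A.accepts (Nat.card σ) (tr A).ncard := by
  obtain ⟨B, h1, h2, h3⟩ := push A hq (Finite.equivFin σ).injective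
  exact ⟨B, ⟨_, h1⟩, h2, h3⟩

variable [Fintype α]

theorem words (hk : 2 ≤ Fintype.card α) (n : ℕ) :
    {w : List α | w.length ≤ n}.ncard + 1 ≤ 2 * Fintype.card α ^ n := by
  induction n with
  | zero => simp
  | succ n ih =>
    have fin := List.finite_length_le α n
    have h : {w : List α | w.length ≤ n + 1} ⊆ insert [] ((fun x : α × List α => x.1 :: x.2) ''
        (Set.univ ×ˢ {w : List α | w.length ≤ n})) := by
      rintro (_ | ⟨a, w⟩) h
      · simp
      · exact Or.inr ⟨(a, w), ⟨trivial, by simpa using h⟩, rfl⟩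
    have f2 := (Set.finite_univ (α := α)).prod fin
    have h1 := (Set.ncard_le_ncard h ((f2.image _).insert _)).trans (Set.ncard_insert_le _ _)
    have h2 := Set.ncard_image_le (f := fun x : α × List α => x.1 :: x.2) f2
    rw [Set.ncard_prod, Set.ncard_univ, Nat.card_eq_fintype_card] at h2
    rw [pow_succ]
    nlinarith

theorem nsc_le (hk : 2 ≤ Fintype.card α) (h : ℕ) (L : Language α)
    (hL : ∀ w ∈ L, w.length = 2 * h + 1) : nsc L ≤ 4 * Fintype.card α ^ h := by
  have fin := (List.finite_length_le α h).to_subtype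
  let g : Bool × {w : List α | w.length ≤ h} → Set (List α) := fun x =>
    if x.1 then {x.2.1} else {w | x.2.1 ++ w ∈ L}
  let A : NFA α (Bool × {w : List α | w.length ≤ h}) :=
    ⟨fun q a => {p | ∀ w ∈ g p, a :: w ∈ g q}, {(false, ⟨[], by simp⟩)}, {q | [] ∈ g q}⟩
  have hA : A.accepts = L := by
    ext w
    rw [NFA.accepts_eq_acceptsFrom_start, acc A g (fun _ => Iff.rfl) fun q a w =>
      ⟨fun H => ?_, fun ⟨p, h1, h2⟩ => h1 w h2⟩]
    · simp [A, g]
    · obtain ⟨b, u, hu⟩ := q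
      by_cases hw : w.length ≤ h
      · exact ⟨(true, ⟨w, hw⟩), fun v hv => by
          have : v = w := by simpa [g] using hv
          exact this ▸ H, by simp [g]⟩
      · cases b
        · have H' : u ++ a :: w ∈ L := by simpa [g] using H
          have := hL _ H'
          simp only [List.length_append, List.length_cons] at this
          refine ⟨(false, ⟨u ++ [a], ?_⟩), fun v hv => by simpa [g] using hv, by simpa [g] using H'⟩
          simp only [Set.mem_setOf_eq, List.length_append, List.length_singleton]; omega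
        · have H' : a :: w = u := by simpa [g] using H
          subst H'
          simp only [Set.mem_setOf_eq, List.length_cons] at hu; omega
  have := rec_of A rfl
  rw [hA] at this
  refine (Nat.sInf_le (s := {n | ∃ t, Rec L n t}) ⟨_, this⟩).trans ?_
  have := words hk h
  rw [Nat.card_prod, Nat.card_coe_set_eq]
  simp only [Nat.card_eq_fintype_card, Fintype.card_bool]
  omega

theorem quot (hk : 2 ≤ Fintype.card α) (r j : ℕ) (L : Language α)
    (hL : ∀ w ∈ L, w.length = r + j) : (Set.range L.leftQuotient).Finite ∧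
    (Set.range L.leftQuotient).ncard ≤ 2 * Fintype.card α ^ r + 2 ^ (2 * Fintype.card α ^ j) := by
  have h : Set.range L.leftQuotient ⊆ L.leftQuotient '' {w | w.length ≤ r} ∪
      𝒫 {w : List α | w.length ≤ j} := by
    rintro _ ⟨u, rfl⟩
    by_cases hu : u.length ≤ r
    · exact Or.inl ⟨u, hu, rfl⟩
    · refine Or.inr fun w hw => ?_
      have := hL _ hw
      simp only [List.length_append, Set.mem_setOf_eq] at this ⊢; omega
  have f1 := List.finite_length_le α r
  have f2 := List.finite_length_le α j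
  have f3 := (f1.image L.leftQuotient).union f2.powerset
  refine ⟨f3.subset h, (Set.ncard_le_ncard h f3).trans ((Set.ncard_union_le _ _).trans
    (add_le_add ((Set.ncard_image_le f1).trans ?_) ?_))⟩
  · have := words hk r; omega
  · have := words hk j
    erw [Set.ncard_powerset _ f2]
    exact Nat.pow_le_pow_right two_pos (by omega)

theorem tc_le (L : Language α) (f : (Set.range L.leftQuotient).Finite) :
    ∃ n t, Rec L n t ∧ t ≤ (Set.range L.leftQuotient).ncard * Fintype.card α := by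
  have := f.to_subtype
  have h := rec_of L.toDFA.toNFA rfl
  rw [DFA.toNFA_correct, Language.accepts_toDFA] at h
  refine ⟨_, _, h, ?_⟩
  have := Set.ncard_le_ncard_of_injOn (s := tr L.toDFA.toNFA) (t := Set.univ)
    (fun x => (x.1, x.2.1)) (fun _ _ => trivial) (by
      rintro ⟨x, a, y⟩ h ⟨x', a', y'⟩ h' e
      cases e
      have e1 : y = _ := h
      have e2 : y' = _ := h'
      rw [e1, e2])
  rwa [Set.ncard_univ, Nat.card_prod, Nat.card_coe_set_eq, Nat.card_eq_fintype_card] at this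

theorem small {β : Type} [Fintype β] [DecidableEq β] (t : ℕ) {q : ℝ} (hq : 1 ≤ q) :
    (((Finset.univ : Finset (Finset β)).filter fun S => S.card ≤ t).card : ℝ) ≤
      Real.exp (t * q + Fintype.card β / q) := by
  have q0 : 0 < q := by linarith
  have h := Finset.sum_pow_mul_eq_add_pow (1 / q) 1 (Finset.univ : Finset β)
  simp only [one_pow, mul_one, Finset.powerset_univ, Finset.card_univ] at h
  calc _ = ∑ S ∈ (Finset.univ : Finset (Finset β)).filter fun S => S.card ≤ t, (1 : ℝ) := by simp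
    _ ≤ ∑ S ∈ (Finset.univ : Finset (Finset β)).filter fun S => S.card ≤ t,
        q ^ t * (1 / q) ^ S.card := Finset.sum_le_sum fun S hS => by
      rw [one_div, inv_pow, ← div_eq_mul_inv, le_div_iff₀ (by positivity), one_mul]
      exact pow_le_pow_right₀ hq (Finset.mem_filter.1 hS).2
    _ ≤ ∑ S : Finset β, q ^ t * (1 / q) ^ S.card :=
      Finset.sum_le_sum_of_subset_of_nonneg (Finset.filter_subset _ _) fun _ _ _ => by positivity
    _ = q ^ t * (1 / q + 1) ^ Fintype.card β := by rw [← Finset.mul_sum, h]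
    _ ≤ Real.exp q ^ t * Real.exp (1 / q) ^ Fintype.card β := by
      gcongr
      · linarith [Real.add_one_le_exp q]
      · exact Real.add_one_le_exp _
    _ = _ := by rw [← Real.exp_nat_mul, ← Real.exp_nat_mul, ← Real.exp_add]; ring_nf

theorem hardL (l m t : ℕ) {q : ℝ} (hq : 1 ≤ q)
    (H : 2 * m + (t * q + m * (Fintype.card α * m) / q) ≤ (Fintype.card α : ℝ) ^ l / 2)
    (hk : 2 ≤ Fintype.card α) :
    ∃ L : Language α, (∀ w ∈ L, w.length = l) ∧ ∀ n s, Rec L n s → s ≤ t → m < n := by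
  classical
  let Φ : Fin m × Finset (Fin m) × Finset (Fin m × α × Fin m) → Set (List.Vector α l) := fun d =>
    {v | v.toList ∈ (NFA.mk (fun p a => {p' | (p, a, p') ∈ d.2.2}) {d.1} d.2.1).accepts}
  let D : Finset (Fin m × Finset (Fin m) × Finset (Fin m × α × Fin m)) :=
    Finset.univ ×ˢ Finset.univ ×ˢ Finset.univ.filter fun S => S.card ≤ t
  have hD : (D.image Φ).card < (Finset.univ : Finset (Set (List.Vector α l))).card := by
    refine Finset.card_image_le.trans_lt ?_
    have h1 := small (β := Fin m × α × Fin m) t hq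
    simp only [D, Finset.card_product, Finset.card_univ, Fintype.card_fin, Fintype.card_finset,
      Fintype.card_set, card_vector, Fintype.card_prod] at h1 ⊢
    rw [← Nat.cast_lt (α := ℝ)]
    push_cast at h1 ⊢
    have e1 : (m : ℝ) ≤ Real.exp m := by linarith [Real.add_one_le_exp (m : ℝ)]
    have e2 : (2 : ℝ) ^ m ≤ Real.exp m := by
      rw [← mul_one (m : ℝ), Real.exp_nat_mul]
      gcongr; linarith [Real.add_one_le_exp (1 : ℝ)]
    have e3 : Real.exp (1 / 2) < 2 := by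
      rw [← Real.lt_log_iff_exp_lt two_pos]; linarith [Real.log_two_gt_d9]
    calc _ ≤ Real.exp m * (Real.exp m * Real.exp (t * q + m * (Fintype.card α * m) / q)) := by
          gcongr
      _ ≤ Real.exp ((Fintype.card α ^ l : ℕ) * (1 / 2)) := by
          rw [← Real.exp_add, ← Real.exp_add]; apply Real.exp_le_exp.2; push_cast; linarith
      _ < _ := by
          rw [Real.exp_nat_mul]
          exact pow_lt_pow_left₀ e3 (Real.exp_pos _).le (by positivity)
  obtain ⟨S, -, hS⟩ := Finset.exists_mem_notMem_of_card_lt_card hD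
  refine ⟨List.Vector.toList '' S, by rintro _ ⟨v, -, rfl⟩; simp, ?_⟩
  rintro n s ⟨A, ⟨q, h1⟩, h2, h3⟩ hs
  by_contra hn
  obtain ⟨B, k1, k2, k3⟩ := push A h1 (Fin.castLE_injective (not_lt.1 hn))
  refine hS (Finset.mem_image.2 ⟨(Fin.castLE (not_lt.1 hn) q, B.accept.toFinset, (tr B).toFinset),
    ?_, ?_⟩)
  · simp only [D, Finset.mem_product, Finset.mem_univ, Finset.mem_filter, true_and]
    rw [← Set.ncard_eq_toFinset_card', k3]
    exact h3.trans_le hs
  · ext v
    have : NFA.mk (fun p a => {p' | (p, a, p') ∈ (tr B).toFinset}) {Fin.castLE (not_lt.1 hn) q}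
        (B.accept.toFinset : Finset _) = B := by
      obtain ⟨s, i, f⟩ := B
      simp only [tr] at k1 ⊢
      simp [k1]
    simp only [Φ, this, k2, h2, Set.mem_setOf_eq]
    exact List.Vector.toList_injective.mem_set_image

theorem result (α : Type) [Fintype α] (hk : 2 ≤ Fintype.card α) (C : ℕ) :
    ∃ L : Language α, L.IsRegular ∧ C * nsc L < T L := by
  obtain ⟨k, hk'⟩ : ∃ k, k = Fintype.card α := ⟨_, rfl⟩
  have lt : ∀ n, n ≤ k ^ n := fun n => (Nat.lt_pow_self (by omega)).le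
  obtain ⟨q, hq⟩ : ∃ q, q = 64 * C ^ 2 + 1 := ⟨_, rfl⟩
  obtain ⟨j, hj⟩ : ∃ j, j = 32 * k * q := ⟨_, rfl⟩
  obtain ⟨D, hD⟩ : ∃ D, D = 2 ^ (2 * k ^ j) := ⟨_, rfl⟩
  obtain ⟨h, hh⟩ : ∃ h, h = j + 16 * k * D * q + 64 * C := ⟨_, rfl⟩
  obtain ⟨r, hr⟩ : ∃ r, 2 * h + 1 = r + j := ⟨2 * h + 1 - j, by omega⟩
  have w1 : k ^ (2 * h + 1) = k ^ r * k ^ j := by rw [hr, pow_add]
  have w2 : k ^ (2 * h + 1) = k * (k ^ h * k ^ h) := by ring
  have p1 : 1 ≤ k ^ h := Nat.one_le_pow _ _ (by omega)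
  have w3 : k ^ h * k ^ h ≤ k ^ (2 * h + 1) := by rw [w2]; exact Nat.le_mul_of_pos_left _ (by omega)
  have a1 : 16 * (C * (4 * k ^ h)) ≤ k ^ (2 * h + 1) := by
    nlinarith [Nat.mul_le_mul_right (k ^ h) (show 64 * C ≤ k ^ h from le_trans (by omega) (lt h))]
  have a2 : 16 * (2 * k ^ r * k * q) ≤ k ^ (2 * h + 1) := by
    rw [w1]; nlinarith [Nat.mul_le_mul_left (k ^ r) (lt j)]
  have a3 : 16 * (D * k * q) ≤ k ^ (2 * h + 1) := by nlinarith [lt h]
  obtain ⟨L, h1, h2⟩ := hardL (α := α) (2 * h + 1) (C * (4 * k ^ h)) ((2 * k ^ r + D) * k)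
    (q := q) (by rw [hq]; exact_mod_cast Nat.le_add_left _ _) (by
      rw [← hk']
      have q0 : (0 : ℝ) < q := by rw [hq]; positivity
      have a4 : ((C * (4 * k ^ h) : ℕ) : ℝ) * (k * (C * (4 * k ^ h) : ℕ)) / q ≤
          (k : ℝ) ^ (2 * h + 1) / 4 := by
        rw [div_le_iff₀ q0, hq]; push_cast
        have : (0 : ℝ) ≤ (k : ℝ) ^ (2 * h + 1) := by positivity
        have e : (k : ℝ) ^ (2 * h + 1) = k * (k ^ h * k ^ h) := by ring
        nlinarith
      have b1 := (Nat.cast_le (α := ℝ)).2 a1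
      have b2 := (Nat.cast_le (α := ℝ)).2 a2
      have b3 := (Nat.cast_le (α := ℝ)).2 a3
      push_cast at a4 b1 b2 b3 ⊢
      nlinarith) hk
  obtain ⟨f, c⟩ := quot hk r j L (hr ▸ h1)
  obtain ⟨n, t, k1, k2⟩ := tc_le L f
  refine ⟨L, .of_finite_range_leftQuotient f, ?_⟩
  obtain ⟨n', k3⟩ : ∃ n, Rec L n (tc L) := Nat.sInf_mem (s := {t | ∃ n, Rec L n t}) ⟨t, n, k1⟩
  have k4 : Rec L (T L) (tc L) := Nat.sInf_mem (s := {n | Rec L n (tc L)}) ⟨n', k3⟩
  have k5 : tc L ≤ t := Nat.sInf_le ⟨n, k1⟩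
  refine (Nat.mul_le_mul_left C (hk' ▸ nsc_le hk h L h1)).trans_lt (h2 _ _ k4 (k5.trans
    (k2.trans ?_)))
  rw [← hk', ← hD] at *
  exact Nat.mul_le_mul_right _ c

end Pool.Agent.Results.MP_48fb2a_lc.Unbounded
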